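import Pool.Agent.H751.AB.Fin

/-!
# The congruence topology of `Out(F_n)` on virtually abelian subgroups

Let `F` be the free group of rank `n ≥ 2` and let `A` be a subgroup of `Out(F)` which has a finitely
generated abelian subgroup of finite index. Then every subgroup of finite index of `A` contains all
elements of `A` which act as inner automorphisms on `F / K`, for some characteristic subgroup `K` of
finite index of `F`: the congruence topology of `Out(F)` induces the full profinite topology on `A`.
In particular, for every finite quotient `π` of `Out(F)` the restriction of `π` to `A` factors through
the restriction of the natural map `Out(F) → Out(F / K)` to `A`, for some `K`.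

By the Tits alternative of Bestvina, Feighn and Handel (every subgroup of `Out(F)` contains a free
group of rank two or is virtually finitely generated abelian) this covers all subgroups of `Out(F)`
without nonabelian free subgroups; this remark is not part of the Lean statement.

Proof (files in `Pool/Agent/H751/AB/`). Let first `A` be abelian. (1) On the part of `A` acting
trivially on the abelianization we use the algebra `ℤ⟪X⟫` of noncommutative power series and the
Magnus map. Let `A_i` be the group of the elements which act as conjugation by a series with constant
term `1` up to degree `i`. The defect in degree `i + 1` is a homomorphism of `A_i` to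
`(T_{i+1})^n / ad(T_i)`, `T_i` the homogeneous elements of degree `i`, which is a torsion-free group,
with kernel `A_{i+1}`. Automorphisms which are trivial modulo `(m, I^{i+2})` have a defect divisible by
`m`. So every subgroup of finite index of `A_i` containing `A_{i+1}` is open (`Lay`, `STEP`), and as
the groups `A_i` are pure in the finitely generated group `A_1`, the chain stops. It stops at the inner
automorphisms (`CU`): if `α(x) = u x u⁻¹` for all `x`, with a power series `u`, then the traces (sums
of the coefficients of the rotations of a word) of `α(x_1)` and of `x_1` agree, so that `α(x_1)` is
conjugate to `x_1` in `F`; similarly for `x_2`; after a conjugation `α(x_1) = x_1`, `u` is a series in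
`x_1` and also `u = k s` with `k` in `F` and `s` a series in `x_2`, so `u` is a power of `x_1` in `F`.
(2) The action on the abelianization: every subgroup of finite index of an abelian group of integral
matrices contains a congruence subgroup. By induction along invariant sublattices this is reduced to
groups of units of number fields, where it is Chevalley's theorem, which is proved here with
Chebotarev's theorem of the starting library (`LOC`, `DESC`, `POW`, `UNIT`, `IRR`, `RED`, `CSA`).
(3) Virtually abelian groups (`VA`): an element `x` of `A` in the closure of the abelian subgroup
commutes with it modulo inner automorphisms, and the theorem for the abelian group generated by both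
shows that `x` belongs to the subgroup.
-/

set_option autoImplicit false

namespace Pool.Agent.Results.MP_181555_al.VirtuallyAbelianSubgroups

/-- The group of inner automorphisms of the free group of rank `n`. -/
def Inn (n : ℕ) : Subgroup (MulAut (FreeGroup (Fin n))) :=
  (MulAut.conj : FreeGroup (Fin n) →* MulAut (FreeGroup (Fin n))).range

instance (n : ℕ) : (Inn n).Normal := H751.AB.inn_normal (Fin n)

/-- The group `Out(F_n)` of outer automorphisms of the free group of rank `n`. -/
abbrev Out (n : ℕ) : Type := MulAut (FreeGroup (Fin n)) ⧸ Inn n

/-- The automorphism `α` acts as an inner automorphism modulo the subgroup `K`. -/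
def InnerModulo {n : ℕ} (K : Subgroup (FreeGroup (Fin n))) (α : MulAut (FreeGroup (Fin n))) :
    Prop :=
  ∃ g : FreeGroup (Fin n), ∀ x : FreeGroup (Fin n), α x * (g * x * g⁻¹)⁻¹ ∈ K

/-- Let `n ≥ 2` and let `A` be a subgroup of `Out(F_n)` with a finitely generated abelian subgroup
`A₀` of finite index. For every subgroup `B` with `A ∩ B` of finite index in `A` there is a
characteristic subgroup `K` of finite index of `F_n` such that every element of `A` which acts as an
inner automorphism on `F_n / K` lies in `B`. -/
theorem result : ∀ n : ℕ, 2 ≤ n → ∀ A A₀ : Subgroup (Out n),
    A₀ ≤ A → A₀.relIndex A ≠ 0 → A₀.FG → (∀ a ∈ A₀, ∀ b ∈ A₀, a * b = b * a) →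
    ∀ B : Subgroup (Out n), B.relIndex A ≠ 0 →
      ∃ K : Subgroup (FreeGroup (Fin n)), K.Characteristic ∧ K.FiniteIndex ∧
        ∀ α : MulAut (FreeGroup (Fin n)), (α : Out n) ∈ A → InnerModulo K α → (α : Out n) ∈ B := by
  intro n hn A A₀ hA hidx hfg hab B hB
  exact H751.AB.final n hn A A₀ B hA hidx hfg hab hB

end Pool.Agent.Results.MP_181555_al.VirtuallyAbelianSubgroups
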